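import Pool.Agent.Lib.MP_ff3fe0_an_SPH2.FinalAll
import Pool.Agent.Lib.MP_ff3fe0_an_SPE.FinalE

/-!
# The spherical maximal operator is gradient-bounded on `W^{1,p}` exactly above `(2d-1)/(2d-2)`

For `d ≥ 2` and `1 < p ≤ d/(d - 1)` the spherical maximal operator `M_S` is gradient-bounded on
`W^{1,p}(ℝ^d)` if and only if `p > (2d - 1)/(2d - 2)`.

Above the threshold: the gradient of `M_S f` at a maximum point is written as a sum over
frequencies and, for an arbitrary choice of vectors `c_k`, in terms of the derivatives of
`∫ (w - c_k) g_m (x - t w) dσ(w)`; the vectors are chosen by averaging over a measure of sources.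
The pieces are estimated by the energy flux of the spherical means through the light cones of the
sources (a trilinear estimate) and by a bilinear `L¹` estimate; in the plane the bounded part is
treated by a power gain for the circular maximal function of bounded functions (energy flux and
composition with the adjoint operator). The sum over the scales is a Calderón-Zygmund argument.

Up to the threshold: sums of bumps of a fixed radius centred at the points of a self-similar set of
integers of dimension `1/2` on a line. For most points two bumps lie on a sphere around the point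
in a proportion `1/k` of all positions, at each scale `64 ^ k`, and the harmonic series diverges.
-/

namespace Pool.Agent.Results.MP_ff3fe0_an.Classification

open MeasureTheory Metric Set
open scoped ENNReal NNReal ContDiff
open Pool.Agent.Lib.MP_ff3fe0_an

/-- `M_S` is gradient-bounded on `W^{1,p}(ℝ^d)`: there is a constant `C` such that for every `f` in
`L^p` with a weak gradient `F` in `L^p` the function `M_S f` is finite almost everywhere and has a
weak gradient `G` with `‖G‖_p ≤ C (‖f‖_p + ‖F‖_p)`. -/
def GradientBounded (d : ℕ) (p : ℝ) : Prop :=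
  ∃ C : ℝ≥0, ∀ (f : E d → ℝ) (F : E d → E d), MemLp f (ENNReal.ofReal p) volume →
    MemLp F (ENNReal.ofReal p) volume → IsWeakGradient f F →
      (∀ᵐ x, sphMax f x ≠ ⊤) ∧ ∃ G : E d → E d,
        IsWeakGradient (fun x => (sphMax f x).toReal) G ∧
        eLpNorm G (ENNReal.ofReal p) volume ≤
          C * (eLpNorm f (ENNReal.ofReal p) volume + eLpNorm F (ENNReal.ofReal p) volume)

/-- A test function has its gradient as weak gradient. -/
theorem weak_of_smooth {d : ℕ} {f : E d → ℝ} (hf : ContDiff ℝ ∞ f) (hc : HasCompactSupport f) :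
    IsWeakGradient f (gradient f) := by
  have hg : Continuous (gradient f) := by
    have h1 : Continuous (fderiv ℝ f) := hf.continuous_fderiv (by simp)
    exact (InnerProductSpace.toDual ℝ (E d)).symm.continuous.comp h1
  refine ⟨hf.continuous.locallyIntegrable, hg.locallyIntegrable, ?_⟩
  intro φ hφ hφc i
  have hgi : ∀ x, gradient f x i = fderiv ℝ f x (EuclideanSpace.single i 1) := by
    intro x
    have h2 : inner ℝ (gradient f x) (EuclideanSpace.single i (1 : ℝ)) =
        fderiv ℝ f x (EuclideanSpace.single i 1) := by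
      rw [gradient, InnerProductSpace.toDual_symm_apply]
    rw [← h2, EuclideanSpace.inner_single_right]
    simp
  have hfd : Continuous (fderiv ℝ f) := hf.continuous_fderiv (by simp)
  have hφd : Continuous (fderiv ℝ φ) := hφ.continuous_fderiv (by simp)
  have h3 := integral_mul_fderiv_eq_neg_fderiv_mul_of_integrable (𝕜 := ℝ) (μ := volume)
      (f := f) (g := φ) (v := EuclideanSpace.single i (1 : ℝ))
      (((hfd.clm_apply continuous_const).mul hφ.continuous).integrable_of_hasCompactSupport
        hφc.mul_left)
      ((hf.continuous.mul (hφd.clm_apply continuous_const)).integrable_of_hasCompactSupport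
        hc.mul_right)
      ((hf.continuous.mul hφ.continuous).integrable_of_hasCompactSupport hc.mul_right)
      (by intro x _; exact (hf.differentiable (by simp)).differentiableAt)
      (by intro x _; exact (hφ.differentiable (by simp)).differentiableAt)
  rw [h3]
  congr 1
  exact integral_congr_ae (Filter.Eventually.of_forall fun x => by simp only [hgi])

/-- Let `d ≥ 2` and `1 < p ≤ d/(d - 1)`. The spherical maximal operator is gradient-bounded on
`W^{1,p}(ℝ^d)` if and only if `p > (2d - 1)/(2d - 2)`. More precisely: above the threshold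
`‖∇ M_S f‖_p ≤ C ‖∇ f‖_p` on `W^{1,p}(ℝ^d)`; up to the threshold for every `C` there is a
nonnegative test function `f` such that every weak gradient `G` of `M_S f` satisfies
`‖G‖_p > C (‖f‖_p + ‖∇f‖_p)`. -/
theorem result (d : ℕ) (hd : 2 ≤ d) (p : ℝ) (hp : 1 < p) (hp' : p ≤ (d : ℝ) / ((d : ℝ) - 1)) :
    (GradientBounded d p ↔ (2 * (d : ℝ) - 1) / (2 * (d : ℝ) - 2) < p) ∧
    ((2 * (d : ℝ) - 1) / (2 * (d : ℝ) - 2) < p → ∃ C : ℝ≥0, ∀ (f : E d → ℝ) (F : E d → E d),
      MemLp f (ENNReal.ofReal p) volume → MemLp F (ENNReal.ofReal p) volume →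
        IsWeakGradient f F → (∀ᵐ x, sphMax f x ≠ ⊤) ∧ ∃ G : E d → E d,
          IsWeakGradient (fun x => (sphMax f x).toReal) G ∧
          eLpNorm G (ENNReal.ofReal p) volume ≤ C * eLpNorm F (ENNReal.ofReal p) volume) ∧
    (p ≤ (2 * (d : ℝ) - 1) / (2 * (d : ℝ) - 2) → ∀ C : ℝ≥0, ∃ f : E d → ℝ,
      ContDiff ℝ ∞ f ∧ HasCompactSupport f ∧ (∀ x, 0 ≤ f x) ∧
        ∀ G : E d → E d, IsWeakGradient (fun x => (sphMax f x).toReal) G →
          C * (eLpNorm f (ENNReal.ofReal p) volume
            + eLpNorm (fderiv ℝ f) (ENNReal.ofReal p) volume)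
          < eLpNorm G (ENNReal.ofReal p) volume) := by
  have hpos : ∀ h : (2 * (d : ℝ) - 1) / (2 * (d : ℝ) - 2) < p, _ := fun h =>
    Pool.Agent.Lib.MP_ff3fe0_an_SPH2.gradient_bounded_all hd h hp'
  have hneg : ∀ h : p ≤ (2 * (d : ℝ) - 1) / (2 * (d : ℝ) - 2), _ := fun h =>
    Pool.Agent.Lib.MP_ff3fe0_an_SPE.gradient_unbounded hd hp.le h
  refine ⟨⟨fun hb => ?_, fun h => ?_⟩, hpos, fun h C => hneg h C⟩
  · by_contra hcon
    push Not at hcon
    obtain ⟨C, hC⟩ := hb
    obtain ⟨f, hf, hc, -, hG⟩ := hneg hcon C
    have hfd : Continuous (fderiv ℝ f) := hf.continuous_fderiv (by simp)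
    have hg : Continuous (gradient f) := (InnerProductSpace.toDual ℝ (E d)).symm.continuous.comp hfd
    have hgc : HasCompactSupport (gradient f) :=
      (hc.fderiv ℝ).comp_left (map_zero (InnerProductSpace.toDual ℝ (E d)).symm)
    obtain ⟨-, G, hG1, hG2⟩ := hC f (gradient f) (hf.continuous.memLp_of_hasCompactSupport hc)
      (hg.memLp_of_hasCompactSupport hgc) (weak_of_smooth hf hc)
    have h1 := hG G hG1
    have h2 : eLpNorm (gradient f) (ENNReal.ofReal p) volume =
        eLpNorm (fderiv ℝ f) (ENNReal.ofReal p) volume :=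
      eLpNorm_congr_norm_ae (Filter.Eventually.of_forall fun x =>
        (InnerProductSpace.toDual ℝ (E d)).symm.norm_map _)
    rw [h2] at hG2
    exact absurd (h1.trans_le hG2) (lt_irrefl _)
  · obtain ⟨C, hC⟩ := hpos h
    refine ⟨C, fun f F hf hF hw => ?_⟩
    obtain ⟨h1, G, h2, h3⟩ := hC f F hf hF hw
    refine ⟨h1, G, h2, h3.trans ?_⟩
    gcongr
    exact le_add_self

end Pool.Agent.Results.MP_ff3fe0_an.Classification
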